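import Pool.Agent.H.MP_c1ac71_an.D

open scoped Real

namespace Pool.Agent.Results.MP_c1ac71_an.NonInteger

/-- the Riemann kernel; the index `n` stands for the positive integer `n + 1` -/
noncomputable def Phi (t : ℝ) : ℝ :=
  ∑' n : ℕ, (2 * ((n : ℝ) + 1) ^ 4 * π ^ 2 * Real.exp (9 * t) -
    3 * ((n : ℝ) + 1) ^ 2 * π * Real.exp (5 * t)) *
      Real.exp (-((n : ℝ) + 1) ^ 2 * π * Real.exp (4 * t))

/-- the cosine transform of the power of the kernel -/
noncomputable def F (α : ℝ) (z : ℂ) : ℂ :=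
  ∫ t in Set.Ioi (0 : ℝ), ((Phi t ^ α : ℝ) : ℂ) * Complex.cos (z * t)

open Pool.Agent.H.MP_c1ac71_an in
theorem result (α : ℝ) (hα : 0 < α) (hn : ∀ n : ℤ, α ≠ n) : ∃ z : ℂ, z.im ≠ 0 ∧ F α z = 0 := by
  have e : ∀ t : ℝ, (Ph t).re = Phi t := fun t => by
    rw [← Complex.ofReal_re (Phi t), Phi, Complex.ofReal_tsum, Ph]
    congr 1
    refine tsum_congr fun n => ?_
    simp only [term]
    push_cast
    rfl
  obtain ⟨z, h1, h2⟩ := main hα fun h => by
    obtain ⟨n, hn'⟩ := Real.sin_eq_zero_iff.1 h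
    exact hn n (mul_left_cancel₀ Real.pi_ne_zero (by rw [← hn', mul_comm]))
  exact ⟨z, h1, by simpa only [e, F] using h2⟩

end Pool.Agent.Results.MP_c1ac71_an.NonInteger
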